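import Mathlib
set_option autoImplicit false

/-!
# Six points and six congruent conics

There are no six distinct points of the plane and six distinct nondegenerate conics, pairwise
congruent, such that each conic passes through exactly five of the points.  The same holds with
similar in place of congruent.

Idea of the proof.  The conics give a basis `v₁, …, v₆` of the space of quadratic polynomials with
`vᵢ(pⱼ) = δᵢⱼ`.  Let `Aᵢ` be the leading part of `vᵢ`.  The six vectors `Aᵢ` of the three dimensional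
space of binary quadratic forms are Gale dual to the six vectors `(pᵢ, 1)`.  Similarity says that all
the `Aᵢ` lie on one cone `4 det A = k (tr A)²`.  Six points of a projective plane lie on a conic when
their Gale duals do, hence the `pᵢ` would lie on one conic, which is absurd.
-/

namespace Pool.Agent.Results.MP_9b4c5b_co.NoSixConfiguration

/-- The Euclidean plane. -/
abbrev Plane := EuclideanSpace ℝ (Fin 2)

/-- The value at the point `p = (x, y)` of the polynomial `a x² + b x y + c y² + d x + e y + f` whose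
coefficients are `u = (a, b, c, d, e, f)`. -/
def quad (u : Fin 6 → ℝ) (p : Plane) : ℝ :=
  u 0 * p 0 ^ 2 + u 1 * (p 0 * p 1) + u 2 * p 1 ^ 2 + u 3 * p 0 + u 4 * p 1 + u 5

/-- Four times the determinant of the symmetric `3 × 3` matrix of the polynomial. -/
def disc (u : Fin 6 → ℝ) : ℝ :=
  4 * u 0 * u 2 * u 5 + u 1 * u 3 * u 4 - u 0 * u 4 ^ 2 - u 2 * u 3 ^ 2 - u 5 * u 1 ^ 2

/-- A nondegenerate real conic, that is, an ellipse, a parabola or a hyperbola: a nonempty zero set of
a quadratic polynomial whose symmetric `3 × 3` matrix is invertible. -/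
def IsConic (C : Set Plane) : Prop :=
  C.Nonempty ∧ ∃ u : Fin 6 → ℝ, disc u ≠ 0 ∧ C = {p | quad u p = 0}

/-- `C'` is the image of `C` under a similarity `x ↦ g (r x)`, where `g` is an isometry of the plane
and `r > 0`. For `r = 1` this says that `C` and `C'` are congruent. -/
def Similar (C C' : Set Plane) : Prop :=
  ∃ r : ℝ, 0 < r ∧ ∃ g : Plane ≃ᵢ Plane, C' = (fun x => g (r • x)) '' C

/-- Twice the signed area of a triangle. -/
def cross (p q r : Plane) : ℝ := (q 0 - p 0) * (r 1 - p 1) - (q 1 - p 1) * (r 0 - p 0)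

lemma ne_iff (p q : Plane) : p ≠ q ↔ 0 < (q 0 - p 0) ^ 2 + (q 1 - p 1) ^ 2 := by
  constructor
  · intro h
    by_contra hc
    apply h
    have h0 : q 0 - p 0 = 0 := by nlinarith [sq_nonneg (q 0 - p 0), sq_nonneg (q 1 - p 1)]
    have h1 : q 1 - p 1 = 0 := by nlinarith [sq_nonneg (q 0 - p 0), sq_nonneg (q 1 - p 1)]
    ext i
    fin_cases i
    · simpa using (sub_eq_zero.mp h0).symm
    · simpa using (sub_eq_zero.mp h1).symm
  · rintro h rfl
    simp at h

/-- A nondegenerate conic has at most two points on a line. -/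
lemma disc_eq_zero {u : Fin 6 → ℝ} {p q r : Plane} (hpq : p ≠ q) (hpr : p ≠ r) (hqr : q ≠ r)
    (hc : cross p q r = 0) (hp : quad u p = 0) (hq : quad u q = 0) (hr : quad u r = 0) :
    disc u = 0 := by
  have hn := (ne_iff p q).mp hpq
  obtain ⟨a, ha⟩ : ∃ a, a = p 0 := ⟨_, rfl⟩
  obtain ⟨b, hb⟩ : ∃ b, b = p 1 := ⟨_, rfl⟩
  obtain ⟨v, hv⟩ : ∃ v, v = q 0 - p 0 := ⟨_, rfl⟩
  obtain ⟨w, hw⟩ : ∃ w, w = q 1 - p 1 := ⟨_, rfl⟩
  set N : ℝ := v ^ 2 + w ^ 2 with hN
  have hN0 : 0 < N := by rw [hN, hv, hw]; exact hn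
  set t : ℝ := ((r 0 - a) * v + (r 1 - b) * w) / N with ht
  have hcr : v * (r 1 - b) - w * (r 0 - a) = 0 := by
    rw [hv, hw, ha, hb]; simpa [cross] using hc
  have hr0 : r 0 = a + t * v := by
    rw [ht]; field_simp
    linear_combination (-w) * hcr + (r 0 - a) * hN
  have hr1 : r 1 = b + t * w := by
    rw [ht]; field_simp
    linear_combination v * hcr + (r 1 - b) * hN
  have hq0 : q 0 = a + v := by rw [ha, hv]; ring
  have hq1 : q 1 = b + w := by rw [hb, hw]; ring
  have ht0 : t ≠ 0 := by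
    intro h0
    apply hpr
    ext i
    fin_cases i
    · simp only [Fin.zero_eta]; rw [hr0, h0, ha]; ring
    · simp only [Fin.mk_one]; rw [hr1, h0, hb]; ring
  have ht1 : t - 1 ≠ 0 := by
    intro h0
    have h1 : t = 1 := by linarith
    apply hqr
    ext i
    fin_cases i
    · simp only [Fin.zero_eta]; rw [hr0, h1, hq0]; ring
    · simp only [Fin.mk_one]; rw [hr1, h1, hq1]; ring
  have e1 : u 0 * a ^ 2 + u 1 * (a * b) + u 2 * b ^ 2 + u 3 * a + u 4 * b + u 5 = 0 := by
    rw [ha, hb]; exact hp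
  simp only [quad] at hq hr
  rw [hq0, hq1] at hq
  rw [hr0, hr1] at hr
  -- the coefficients of the restriction to the line
  set A : ℝ := u 0 * v ^ 2 + u 1 * (v * w) + u 2 * w ^ 2 with hA
  set B : ℝ := 2 * u 0 * a * v + u 1 * (a * w + b * v) + 2 * u 2 * b * w + u 3 * v + u 4 * w with hB
  have h1 : A + B = 0 := by rw [hA, hB]; linear_combination hq - e1
  have h2 : t * (A * t + B) = 0 := by rw [hA, hB]; linear_combination hr - e1
  have h3 : A * t + B = 0 := by
    rcases mul_eq_zero.mp h2 with h | h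
    · exact absurd h ht0
    · exact h
  have e3 : A = 0 := by
    have : A * (t - 1) = 0 := by linear_combination h3 - h1
    rcases mul_eq_zero.mp this with h | h
    · exact h
    · exact absurd h ht1
  have e2 : B = 0 := by linarith
  have key : N ^ 2 * disc u = 0 := by
    have hx : ∃ x y z : ℝ, N ^ 2 * disc u = 4 * ((u 0 * a ^ 2 + u 1 * (a * b) + u 2 * b ^ 2 + u 3 * a
        + u 4 * b + u 5) * (A * z - y ^ 2) + (B / 2) * (-(B / 2) * z + 2 * x * y) - A * x ^ 2) := by
      refine ⟨u 0 * a * w - u 1 / 2 * a * v + u 1 / 2 * b * w - u 2 * b * v + u 3 / 2 * w - u 4 / 2 * v,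
        u 0 * v * w - u 1 / 2 * v ^ 2 + u 1 / 2 * w ^ 2 - u 2 * v * w,
        u 0 * w ^ 2 - u 1 * (v * w) + u 2 * v ^ 2, ?_⟩
      rw [hN, hA, hB, disc]; ring
    obtain ⟨x, y, z, h⟩ := hx
    rw [h, e1, e2, e3]; ring
  rcases mul_eq_zero.mp key with h | h
  · exact absurd h (by positivity)
  · exact h

/-- The coefficients of the product of the equations of the lines `p q` and `r s`. -/
def lines (p q r s : Plane) : Fin 6 → ℝ :=
  ![(q 1 - p 1) * (s 1 - r 1),
    -((q 1 - p 1) * (s 0 - r 0) + (s 1 - r 1) * (q 0 - p 0)),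
    (q 0 - p 0) * (s 0 - r 0),
    -((q 1 - p 1) * ((s 1 - r 1) * r 0 - (s 0 - r 0) * r 1)
      + (s 1 - r 1) * ((q 1 - p 1) * p 0 - (q 0 - p 0) * p 1)),
    (q 0 - p 0) * ((s 1 - r 1) * r 0 - (s 0 - r 0) * r 1)
      + (s 0 - r 0) * ((q 1 - p 1) * p 0 - (q 0 - p 0) * p 1),
    ((q 1 - p 1) * p 0 - (q 0 - p 0) * p 1) * ((s 1 - r 1) * r 0 - (s 0 - r 0) * r 1)]

lemma quad_lines (p q r s x : Plane) : quad (lines p q r s) x = cross p q x * cross r s x := by
  simp [quad, lines, cross]
  ring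

lemma cross_left (p q : Plane) : cross p q p = 0 := by simp [cross]

lemma cross_right (p q : Plane) : cross p q q = 0 := by simp [cross]; ring

/-- Evaluation of the quadratic polynomials at some points. -/
def ev {n : ℕ} (q : Fin n → Plane) : (Fin 6 → ℝ) →ₗ[ℝ] (Fin n → ℝ) where
  toFun u i := quad u (q i)
  map_add' u v := by ext i; simp [quad]; ring
  map_smul' c u := by ext i; simp [quad]; ring

lemma ev_apply {n : ℕ} (q : Fin n → Plane) (u : Fin 6 → ℝ) (i : Fin n) :
    ev q u i = quad u (q i) := rfl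

lemma surj_of_single {n : ℕ} (q : Fin n → Plane)
    (h : ∀ k, ∃ u, quad u (q k) ≠ 0 ∧ ∀ i, i ≠ k → quad u (q i) = 0) :
    Function.Surjective (ev q) := by
  choose w hw hw' using h
  intro y
  refine ⟨∑ k, (y k / quad (w k) (q k)) • w k, ?_⟩
  rw [map_sum]
  ext i
  rw [Finset.sum_apply, Finset.sum_eq_single i]
  · rw [map_smul, Pi.smul_apply, ev_apply, smul_eq_mul, div_mul_cancel₀ _ (hw i)]
  · intro k _ hk
    rw [map_smul, Pi.smul_apply, ev_apply, hw' k i (Ne.symm hk), smul_zero]
  · intro hi; exact absurd (Finset.mem_univ i) hi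

/-- Two quadratic polynomials which vanish at five points, no three of them collinear, are
proportional. -/
lemma five {q : Fin 5 → Plane}
    (hnc : ∀ i j k : Fin 5, i ≠ j → i ≠ k → j ≠ k → cross (q i) (q j) (q k) ≠ 0)
    {u w : Fin 6 → ℝ} (hu0 : u ≠ 0) (hu : ∀ i, quad u (q i) = 0) (hw : ∀ i, quad w (q i) = 0) :
    ∃ t : ℝ, w = t • u := by
  have hs : Function.Surjective (ev q) := by
    apply surj_of_single
    intro k
    have key : ∀ a b c d : Fin 5, a ≠ b → c ≠ d → a ≠ k → b ≠ k → c ≠ k → d ≠ k →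
        (∀ i, i ≠ k → i = a ∨ i = b ∨ i = c ∨ i = d) →
        ∃ u, quad u (q k) ≠ 0 ∧ ∀ i, i ≠ k → quad u (q i) = 0 := by
      intro a b c d hab hcd hak hbk hck hdk hall
      refine ⟨lines (q a) (q b) (q c) (q d), ?_, ?_⟩
      · rw [quad_lines]
        exact mul_ne_zero (hnc a b k hab hak hbk) (hnc c d k hcd hck hdk)
      · intro i hi
        rw [quad_lines]
        rcases hall i hi with rfl | rfl | rfl | rfl
        · rw [cross_left, zero_mul]
        · rw [cross_right, zero_mul]
        · rw [cross_left, mul_zero]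
        · rw [cross_right, mul_zero]
    fin_cases k
    · exact key 1 2 3 4 (by decide) (by decide) (by decide) (by decide) (by decide) (by decide)
        (by decide)
    · exact key 0 2 3 4 (by decide) (by decide) (by decide) (by decide) (by decide) (by decide)
        (by decide)
    · exact key 0 1 3 4 (by decide) (by decide) (by decide) (by decide) (by decide) (by decide)
        (by decide)
    · exact key 0 1 2 4 (by decide) (by decide) (by decide) (by decide) (by decide) (by decide)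
        (by decide)
    · exact key 0 1 2 3 (by decide) (by decide) (by decide) (by decide) (by decide) (by decide)
        (by decide)
  have hk : Module.finrank ℝ (LinearMap.ker (ev q)) = 1 := by
    have h := LinearMap.finrank_range_add_finrank_ker (ev q)
    rw [LinearMap.range_eq_top.mpr hs, finrank_top] at h
    simp at h
    omega
  have hu' : u ∈ LinearMap.ker (ev q) := by
    rw [LinearMap.mem_ker]; ext i; exact hu i
  have hw' : w ∈ LinearMap.ker (ev q) := by
    rw [LinearMap.mem_ker]; ext i; exact hw i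
  obtain ⟨t, ht⟩ := (finrank_eq_one_iff_of_nonzero' (⟨u, hu'⟩ : LinearMap.ker (ev q))
    (fun h => hu0 (congrArg Subtype.val h))).mp hk ⟨w, hw'⟩
  exact ⟨t, (congrArg Subtype.val ht).symm⟩

/-- An affine function which vanishes at three points that are not collinear is zero. -/
lemma affine_zero {w : Fin 6 → ℝ} (h0 : w 0 = 0) (h1 : w 1 = 0) (h2 : w 2 = 0) {p q r : Plane}
    (hc : cross p q r ≠ 0) (hp : quad w p = 0) (hq : quad w q = 0) (hr : quad w r = 0) : w = 0 := by
  simp only [quad, h0, h1, h2, zero_mul, zero_add] at hp hq hr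
  have h3 : w 3 = 0 := by
    have : cross p q r * w 3 = 0 := by
      rw [cross]
      linear_combination (q 1 - r 1) * hp + (r 1 - p 1) * hq + (p 1 - q 1) * hr
    exact (mul_eq_zero.mp this).resolve_left hc
  have h4 : w 4 = 0 := by
    have : cross p q r * w 4 = 0 := by
      rw [cross]
      linear_combination (r 0 - q 0) * hp + (p 0 - r 0) * hq + (q 0 - p 0) * hr
    exact (mul_eq_zero.mp this).resolve_left hc
  have h5 : w 5 = 0 := by rw [h3, h4] at hp; linarith
  ext i
  fin_cases i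
  · exact h0
  · exact h1
  · exact h2
  · exact h3
  · exact h4
  · exact h5

/-- The trace of the leading part. -/
def tr (u : Fin 6 → ℝ) : ℝ := u 0 + u 2

/-- Four times the determinant of the leading part. -/
def dt (u : Fin 6 → ℝ) : ℝ := 4 * (u 0 * u 2) - u 1 ^ 2

lemma inn (x y : Plane) : inner ℝ x y = x 0 * y 0 + x 1 * y 1 := by
  simp [PiLp.inner_apply, Fin.sum_univ_two]
  ring

/-- An isometry of the plane in coordinates. -/
lemma coords (g : Plane ≃ᵢ Plane) : ∃ a b c d e f : ℝ,
    (∀ x, g x 0 = a * x 0 + c * x 1 + e) ∧ (∀ x, g x 1 = b * x 0 + d * x 1 + f) ∧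
    a ^ 2 + b ^ 2 = 1 ∧ c ^ 2 + d ^ 2 = 1 ∧ a * c + b * d = 0 := by
  obtain ⟨L, hL⟩ : ∃ L : Plane ≃ₗᵢ[ℝ] Plane, ∀ x, g x = L x + g 0 := by
    refine ⟨g.toRealAffineIsometryEquiv.linearIsometryEquiv, fun x => ?_⟩
    have h := g.toRealAffineIsometryEquiv.map_vadd 0 x
    simpa using h
  set e0 : Plane := EuclideanSpace.single 0 1 with he0
  set e1 : Plane := EuclideanSpace.single 1 1 with he1
  have hx : ∀ x : Plane, L x = x 0 • L e0 + x 1 • L e1 := by
    intro x
    rw [← map_smul, ← map_smul, ← map_add]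
    congr 1
    ext i
    fin_cases i <;> simp [he0, he1]
  refine ⟨L e0 0, L e0 1, L e1 0, L e1 1, g 0 0, g 0 1, ?_, ?_, ?_, ?_, ?_⟩
  · intro x
    rw [hL x, hx x]
    simp
    ring
  · intro x
    rw [hL x, hx x]
    simp
    ring
  · have h : inner ℝ (L e0) (L e0) = inner ℝ e0 e0 := L.inner_map_map e0 e0
    rw [inn, inn e0 e0] at h
    have h0 : e0 0 = 1 := by simp [he0]
    have h1 : e0 1 = 0 := by simp [he0]
    rw [h0, h1] at h
    linarith
  · have h : inner ℝ (L e1) (L e1) = inner ℝ e1 e1 := L.inner_map_map e1 e1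
    rw [inn, inn e1 e1] at h
    have h0 : e1 0 = 0 := by simp [he1]
    have h1 : e1 1 = 1 := by simp [he1]
    rw [h0, h1] at h
    linarith
  · have h : inner ℝ (L e0) (L e1) = inner ℝ e0 e1 := L.inner_map_map e0 e1
    rw [inn, inn e0 e1] at h
    have h0 : e0 0 = 1 := by simp [he0]
    have h1 : e0 1 = 0 := by simp [he0]
    have h2 : e1 0 = 0 := by simp [he1]
    have h3 : e1 1 = 1 := by simp [he1]
    rw [h0, h1, h2, h3] at h
    linarith

/-- The pull-back of a quadratic polynomial under a similarity. -/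
lemma pull (g : Plane ≃ᵢ Plane) (r : ℝ) (u : Fin 6 → ℝ) : ∃ w : Fin 6 → ℝ,
    (∀ x, quad w x = quad u (g (r • x))) ∧ tr w = r ^ 2 * tr u ∧ dt w = r ^ 4 * dt u := by
  obtain ⟨a, b, c, d, e, f, h0, h1, h2, h3, h4⟩ := coords g
  refine ⟨![r ^ 2 * (u 0 * a ^ 2 + u 1 * (a * b) + u 2 * b ^ 2),
    r ^ 2 * (2 * u 0 * a * c + u 1 * (a * d + b * c) + 2 * u 2 * b * d),
    r ^ 2 * (u 0 * c ^ 2 + u 1 * (c * d) + u 2 * d ^ 2),
    r * (2 * u 0 * a * e + u 1 * (a * f + b * e) + 2 * u 2 * b * f + u 3 * a + u 4 * b),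
    r * (2 * u 0 * c * e + u 1 * (c * f + d * e) + 2 * u 2 * d * f + u 3 * c + u 4 * d),
    u 0 * e ^ 2 + u 1 * (e * f) + u 2 * f ^ 2 + u 3 * e + u 4 * f + u 5], ?_, ?_, ?_⟩
  · intro x
    simp only [quad, h0, h1]
    simp
    ring
  · have hc : c = -(b * (a * d - b * c)) := by linear_combination (-c) * h2 + a * h4
    have hd : d = a * (a * d - b * c) := by linear_combination (-d) * h2 + b * h4
    have hD : (a * d - b * c) ^ 2 = 1 := by
      linear_combination (c ^ 2 + d ^ 2) * h2 + h3 - (a * c + b * d) * h4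
    set D := a * d - b * c with hDd
    simp [tr]
    have e1 : c ^ 2 = b ^ 2 := by rw [hc]; linear_combination b ^ 2 * hD
    have e2 : d ^ 2 = a ^ 2 := by rw [hd]; linear_combination a ^ 2 * hD
    have e3 : c * d = -(a * b) := by rw [hc, hd]; linear_combination (-(a * b)) * hD
    rw [e1, e2, e3]
    linear_combination r ^ 2 * (u 0 + u 2) * h2
  · have hD : (a * d - b * c) ^ 2 = 1 := by
      linear_combination (c ^ 2 + d ^ 2) * h2 + h3 - (a * c + b * d) * h4
    simp [dt]
    linear_combination r ^ 4 * (4 * (u 0 * u 2) - u 1 ^ 2) * hD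

/-- The coefficients of the product of two affine functions. -/
def pr (u w : Fin 6 → ℝ) : Fin 6 → ℝ :=
  ![u 3 * w 3, u 3 * w 4 + u 4 * w 3, u 4 * w 4, u 3 * w 5 + u 5 * w 3, u 4 * w 5 + u 5 * w 4,
    u 5 * w 5]

lemma quad_pr {u w : Fin 6 → ℝ} (hu : u 0 = 0 ∧ u 1 = 0 ∧ u 2 = 0) (hw : w 0 = 0 ∧ w 1 = 0 ∧ w 2 = 0)
    (x : Plane) : quad (pr u w) x = quad u x * quad w x := by
  simp only [quad, hu.1, hu.2.1, hu.2.2, hw.1, hw.2.1, hw.2.2]
  simp [pr]
  ring

/-- The six products of the coefficients of the leading part. -/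
def sq (u : Fin 6 → ℝ) : Fin 6 → ℝ :=
  ![u 0 * u 0, u 0 * u 1, u 1 * u 1, u 0 * u 2, u 1 * u 2, u 2 * u 2]

lemma quad_sum (c : Fin 6 → ℝ) (v : Fin 6 → Fin 6 → ℝ) (x : Plane) :
    quad (∑ j, c j • v j) x = ∑ j, c j * quad (v j) x := by
  simp [quad, Finset.sum_apply, Fin.sum_univ_six]
  ring

lemma three (i j : Fin 6) : ∃ a b c : Fin 6, (a ≠ i ∧ a ≠ j) ∧ (b ≠ i ∧ b ≠ j) ∧ (c ≠ i ∧ c ≠ j) ∧
    a ≠ b ∧ a ≠ c ∧ b ≠ c := by
  have h : 2 < ((Finset.univ.erase i).erase j : Finset (Fin 6)).card := by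
    have h1 : (Finset.univ.erase i : Finset (Fin 6)).card = 5 := by
      rw [Finset.card_erase_of_mem (Finset.mem_univ i)]; simp
    have h2 := Finset.pred_card_le_card_erase (s := (Finset.univ.erase i : Finset (Fin 6))) (a := j)
    omega
  obtain ⟨a, ha, b, hb, c, hc, hab, hac, hbc⟩ := Finset.two_lt_card.mp h
  simp only [Finset.mem_erase, Finset.mem_univ, and_true] at ha hb hc
  exact ⟨a, b, c, ⟨ha.2, ha.1⟩, ⟨hb.2, hb.1⟩, ⟨hc.2, hc.1⟩, hab, hac, hbc⟩

/-- The heart of the matter: the leading parts of the six quadratic polynomials dual to six points in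
general position do not all have the same ratio of `det` to `tr ^ 2`. -/
lemma core {p : Fin 6 → Plane} {v : Fin 6 → Fin 6 → ℝ}
    (hnc : ∀ i j k : Fin 6, i ≠ j → i ≠ k → j ≠ k → cross (p i) (p j) (p k) ≠ 0)
    (hv : ∀ i j, quad (v i) (p j) = if j = i then 1 else 0)
    (hs : ∀ i j, dt (v i) * tr (v j) ^ 2 = dt (v j) * tr (v i) ^ 2) : False := by
  -- evaluation at the six points is injective
  have hinj : Function.Injective (ev p) := by
    rw [LinearMap.injective_iff_surjective]
    apply surj_of_single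
    intro k
    refine ⟨v k, by simp [hv], fun i hi => by simp [hv, hi]⟩
  have zero_of : ∀ w : Fin 6 → ℝ, (∀ i, quad w (p i) = 0) → w = 0 := by
    intro w hw
    apply hinj
    rw [map_zero]
    ext i
    exact hw i
  have val : ∀ (c : Fin 6 → ℝ) (i : Fin 6), quad (∑ j, c j • v j) (p i) = c i := by
    intro c i
    rw [quad_sum]
    simp [hv]
  -- vanishing leading parts
  have aff : ∀ (i j : Fin 6) (w : Fin 6 → ℝ), (w 0 = 0 ∧ w 1 = 0 ∧ w 2 = 0) →
      (∀ l, l ≠ i → l ≠ j → quad w (p l) = 0) → w = 0 := by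
    intro i j w hw hl
    obtain ⟨a, b, c, ha, hb, hc, hab, hac, hbc⟩ := three i j
    exact affine_zero hw.1 hw.2.1 hw.2.2 (hnc a b c hab hac hbc) (hl a ha.1 ha.2) (hl b hb.1 hb.2)
      (hl c hc.1 hc.2)
  have ntriv : ∀ i, ¬ (v i 0 = 0 ∧ v i 1 = 0 ∧ v i 2 = 0) := by
    intro i hi
    have h0 : v i = 0 := aff i i (v i) hi (fun l hl _ => by simp [hv, hl])
    have h1 := hv i i
    rw [h0] at h1
    simp [quad] at h1
  -- some trace is not zero
  obtain ⟨j0, hj0⟩ : ∃ j0, tr (v j0) ≠ 0 := by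
    by_contra hcon
    push Not at hcon
    set w : Fin 6 → ℝ := ![1, 0, 1, 0, 0, 0] with hw
    have h1 : w - ∑ j, (quad w (p j)) • v j = 0 := by
      apply zero_of
      intro i
      have h2 := val (fun j => quad w (p j)) i
      have h3 : quad (w - ∑ j, (quad w (p j)) • v j) (p i)
          = quad w (p i) - quad (∑ j, (quad w (p j)) • v j) (p i) := by
        simp only [quad, Pi.sub_apply]; ring
      rw [h3, h2, sub_self]
    have h4 : tr w = tr (∑ j, (quad w (p j)) • v j) := congrArg tr (sub_eq_zero.mp h1)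
    have h5 : tr (∑ j, (quad w (p j)) • v j) = ∑ j, quad w (p j) * tr (v j) := by
      simp only [tr, Finset.sum_apply, Pi.smul_apply, smul_eq_mul, mul_add, Finset.sum_add_distrib]
    rw [h5] at h4
    simp only [hcon, mul_zero, Finset.sum_const_zero] at h4
    simp [tr, hw] at h4
  obtain ⟨k, hk⟩ : ∃ k : ℝ, ∀ i, dt (v i) = k * tr (v i) ^ 2 := by
    refine ⟨dt (v j0) / tr (v j0) ^ 2, fun i => ?_⟩
    have h := hs i j0
    field_simp
    linarith
  -- the relation between the squares of the leading parts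
  obtain ⟨μ, hμ0, hμ⟩ : ∃ μ : Fin 6 → ℝ, μ ≠ 0 ∧ ∑ j, μ j • sq (v j) = 0 := by
    set Φ : (Fin 6 → ℝ) →ₗ[ℝ] (Fin 6 → ℝ) :=
      ∑ j, (LinearMap.proj j : (Fin 6 → ℝ) →ₗ[ℝ] ℝ).smulRight (sq (v j)) with hΦ
    have hΦa : ∀ μ, Φ μ = ∑ j, μ j • sq (v j) := by
      intro μ
      simp [hΦ, LinearMap.sum_apply]
    have hns : ¬ Function.Injective Φ := by
      rw [LinearMap.injective_iff_surjective]
      intro hsu
      obtain ⟨μ, hμ⟩ := hsu (Pi.single 2 1)
      have hN : 4 * (Φ μ) 3 - (Φ μ) 2 - k * ((Φ μ) 0 + 2 * (Φ μ) 3 + (Φ μ) 5) = 0 := by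
        rw [hΦa]
        simp only [Finset.sum_apply, Pi.smul_apply, smul_eq_mul]
        have : ∀ j, μ j * (dt (v j) - k * tr (v j) ^ 2) = 0 := fun j => by rw [hk j]; ring
        have h2 : ∑ j, μ j * (dt (v j) - k * tr (v j) ^ 2) = 0 :=
          Finset.sum_eq_zero (fun j _ => this j)
        simp only [sq, dt, tr] at h2 ⊢
        simp [Fin.sum_univ_six] at h2 ⊢
        linear_combination h2
      rw [hμ] at hN
      simp at hN
    rw [← LinearMap.ker_eq_bot, Submodule.eq_bot_iff] at hns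
    push Not at hns
    obtain ⟨μ, h1, h2⟩ := hns
    exact ⟨μ, h2, by rw [← hΦa]; exact h1⟩
  have hμe : ∀ s, ∑ j, μ j * sq (v j) s = 0 := by
    intro s
    have := congrFun hμ s
    simpa [Finset.sum_apply] using this
  -- the three affine functions
  set h : Fin 6 → Fin 6 → ℝ := fun s => ∑ j, (μ j * v j s) • v j with hh
  have hval : ∀ s i, quad (h s) (p i) = μ i * v i s := fun s i => val (fun j => μ j * v j s) i
  have hlead : ∀ s t, h s t = ∑ j, μ j * (v j s * v j t) := by
    intro s t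
    simp only [hh, Finset.sum_apply, Pi.smul_apply, smul_eq_mul, mul_assoc]
  have m00 : ∑ j, μ j * (v j 0 * v j 0) = 0 := by simpa [sq] using hμe 0
  have m01 : ∑ j, μ j * (v j 0 * v j 1) = 0 := by simpa [sq] using hμe 1
  have m11 : ∑ j, μ j * (v j 1 * v j 1) = 0 := by simpa [sq] using hμe 2
  have m02 : ∑ j, μ j * (v j 0 * v j 2) = 0 := by simpa [sq] using hμe 3
  have m12 : ∑ j, μ j * (v j 1 * v j 2) = 0 := by simpa [sq] using hμe 4
  have m22 : ∑ j, μ j * (v j 2 * v j 2) = 0 := by simpa [sq] using hμe 5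
  have l0 : h 0 0 = 0 ∧ h 0 1 = 0 ∧ h 0 2 = 0 := by
    rw [hlead, hlead, hlead]; exact ⟨m00, m01, m02⟩
  have l1 : h 1 0 = 0 ∧ h 1 1 = 0 ∧ h 1 2 = 0 := by
    rw [hlead, hlead, hlead]
    exact ⟨by simpa only [mul_comm (v _ 1) (v _ 0)] using m01, m11, m12⟩
  have l2 : h 2 0 = 0 ∧ h 2 1 = 0 ∧ h 2 2 = 0 := by
    rw [hlead, hlead, hlead]
    exact ⟨by simpa only [mul_comm (v _ 2) (v _ 0)] using m02,
      by simpa only [mul_comm (v _ 2) (v _ 1)] using m12, m22⟩
  -- the quadratic function which vanishes at the six points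
  have hB : ∀ x : Plane, 4 * (quad (h 0) x * quad (h 2) x) - quad (h 1) x ^ 2
      - k * (quad (h 0) x + quad (h 2) x) ^ 2 = 0 := by
    set G : Fin 6 → ℝ := (4 - 2 * k) • pr (h 0) (h 2) - pr (h 1) (h 1) - k • pr (h 0) (h 0)
      - k • pr (h 2) (h 2) with hG
    have hGq : ∀ x, quad G x = 4 * (quad (h 0) x * quad (h 2) x) - quad (h 1) x ^ 2
      - k * (quad (h 0) x + quad (h 2) x) ^ 2 := by
      intro x
      have e : quad G x = (4 - 2 * k) * quad (pr (h 0) (h 2)) x - quad (pr (h 1) (h 1)) x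
          - k * quad (pr (h 0) (h 0)) x - k * quad (pr (h 2) (h 2)) x := by
        simp only [hG, quad, Pi.sub_apply, Pi.smul_apply, smul_eq_mul]; ring
      rw [e, quad_pr l0 l2, quad_pr l1 l1, quad_pr l0 l0, quad_pr l2 l2]
      ring
    have hG0 : G = 0 := by
      apply zero_of
      intro i
      rw [hGq, hval, hval, hval]
      have := hk i
      simp only [dt, tr] at this
      linear_combination μ i ^ 2 * this
    intro x
    rw [← hGq, hG0]
    simp [quad]
  -- polarisation
  have hpol : ∀ i j, μ i * μ j * (2 * (v i 0 * v j 2 + v j 0 * v i 2) - v i 1 * v j 1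
      - k * (tr (v i) * tr (v j))) = 0 := by
    intro i j
    have hmid : ∀ w : Fin 6 → ℝ, (w 0 = 0 ∧ w 1 = 0 ∧ w 2 = 0) →
        quad w (midpoint ℝ (p i) (p j)) = (quad w (p i) + quad w (p j)) / 2 := by
      intro w hw
      simp only [quad, hw.1, hw.2.1, hw.2.2]
      have e0 : (midpoint ℝ (p i) (p j)) 0 = (p i 0 + p j 0) / 2 := by
        simp [midpoint_eq_smul_add]; ring
      have e1 : (midpoint ℝ (p i) (p j)) 1 = (p i 1 + p j 1) / 2 := by
        simp [midpoint_eq_smul_add]; ring
      rw [e0, e1]; ring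
    have h1 := hB (midpoint ℝ (p i) (p j))
    rw [hmid _ l0, hmid _ l1, hmid _ l2] at h1
    have h2 := hB (p i)
    have h3 := hB (p j)
    rw [hval, hval, hval] at h2 h3
    rw [hval, hval, hval, hval, hval, hval] at h1
    simp only [tr]
    linear_combination 2 * h1 - h2 / 2 - h3 / 2
  -- two indices with `μ ≠ 0`
  obtain ⟨i, hi⟩ : ∃ i, μ i ≠ 0 := by
    by_contra hcon
    push Not at hcon
    exact hμ0 (funext hcon)
  obtain ⟨j, hji, hj⟩ : ∃ j, j ≠ i ∧ μ j ≠ 0 := by
    by_contra hcon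
    push Not at hcon
    have single : ∀ f : Fin 6 → ℝ, ∑ j, μ j * f j = μ i * f i := by
      intro f
      apply Finset.sum_eq_single i
      · intro j _ hj
        rw [hcon j hj, zero_mul]
      · intro h; exact absurd (Finset.mem_univ i) h
    rw [single (fun j => v j 0 * v j 0)] at m00
    rw [single (fun j => v j 1 * v j 1)] at m11
    rw [single (fun j => v j 2 * v j 2)] at m22
    exact ntriv i ⟨mul_self_eq_zero.mp ((mul_eq_zero.mp m00).resolve_left hi),
      mul_self_eq_zero.mp ((mul_eq_zero.mp m11).resolve_left hi),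
      mul_self_eq_zero.mp ((mul_eq_zero.mp m22).resolve_left hi)⟩
  have hb := (mul_eq_zero.mp (hpol i j)).resolve_left (mul_ne_zero hi hj)
  -- the combination of the leading parts with trace zero
  have hki := hk i
  have hkj := hk j
  set ti := tr (v i) with hti
  set tj := tr (v j) with htj
  simp only [dt] at hki hkj
  have hti' : v i 2 = ti - v i 0 := by rw [hti, tr]; ring
  have htj' : v j 2 = tj - v j 0 := by rw [htj, tr]; ring
  have hsq : 4 * (tj * v i 0 - ti * v j 0) ^ 2 + (tj * v i 1 - ti * v j 1) ^ 2 = 0 := by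
    rw [hti'] at hki hb
    rw [htj'] at hkj hb
    linear_combination (-(tj ^ 2)) * hki - ti ^ 2 * hkj + 2 * ti * tj * hb
  have z0 : tj * v i 0 - ti * v j 0 = 0 := by
    nlinarith [sq_nonneg (tj * v i 0 - ti * v j 0), sq_nonneg (tj * v i 1 - ti * v j 1)]
  have z1 : tj * v i 1 - ti * v j 1 = 0 := by
    nlinarith [sq_nonneg (tj * v i 0 - ti * v j 0), sq_nonneg (tj * v i 1 - ti * v j 1)]
  have z2 : tj * v i 2 - ti * v j 2 = 0 := by
    rw [hti', htj']; linear_combination -z0
  have hw : tj • v i - ti • v j = 0 := by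
    apply aff i j
    · refine ⟨?_, ?_, ?_⟩
      · simpa using z0
      · simpa using z1
      · simpa using z2
    · intro l hli hlj
      have e : quad (tj • v i - ti • v j) (p l) = tj * quad (v i) (p l) - ti * quad (v j) (p l) := by
        simp only [quad, Pi.sub_apply, Pi.smul_apply, smul_eq_mul]; ring
      rw [e, hv, hv]
      simp [hli, hlj]
  have ht0 : ti = 0 := by
    have e : quad (tj • v i - ti • v j) (p j) = tj * quad (v i) (p j) - ti * quad (v j) (p j) := by
      simp only [quad, Pi.sub_apply, Pi.smul_apply, smul_eq_mul]; ring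
    rw [hw, hv, hv] at e
    simpa [quad, hji] using e
  rw [hti', ht0] at hki
  have y0 : v i 0 = 0 := by nlinarith [sq_nonneg (v i 0), sq_nonneg (v i 1)]
  have y1 : v i 1 = 0 := by
    rw [y0] at hki
    nlinarith [sq_nonneg (v i 1)]
  exact ntriv i ⟨y0, y1, by rw [hti', ht0, y0]; ring⟩

lemma four (i j k : Fin 6) : ∃ l : Fin 6, i ≠ l ∧ j ≠ l ∧ k ≠ l := by
  revert i j k; decide

/-- There are no six distinct points and six distinct, pairwise similar conics (in particular, no six
distinct, pairwise congruent conics) such that each conic contains exactly five of the points. -/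
theorem result : ¬ ∃ (p : Fin 6 → Plane) (C : Fin 6 → Set Plane),
    Function.Injective p ∧ Function.Injective C ∧ (∀ i, IsConic (C i)) ∧
    (∀ i j, Similar (C i) (C j)) ∧ ∀ i, {j | p j ∈ C i}.ncard = 5 := by
  rintro ⟨p, C, hp, hC, hcon, hsim, hcard⟩
  choose hne u hu hCu using hcon
  -- the missing point of each conic
  have hmiss : ∀ i, ∃ m, p m ∉ C i ∧ ∀ j, j ≠ m → p j ∈ C i := by
    intro i
    have h1 := Set.ncard_add_ncard_compl {j | p j ∈ C i}
    rw [hcard i] at h1
    simp only [Nat.card_eq_fintype_card, Fintype.card_fin] at h1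
    obtain ⟨m, hm⟩ := Set.ncard_eq_one.mp (show ({j | p j ∈ C i}ᶜ).ncard = 1 by omega)
    refine ⟨m, ?_, fun j hj => ?_⟩
    · have : m ∈ {j | p j ∈ C i}ᶜ := by rw [hm]; exact rfl
      exact this
    · by_contra hc
      have : j ∈ {j | p j ∈ C i}ᶜ := hc
      rw [hm] at this
      exact hj this
  choose m hm hm' using hmiss
  have hmem : ∀ i x, x ∈ C i ↔ quad (u i) x = 0 := by
    intro i x
    constructor
    · intro h; rw [hCu i] at h; exact h
    · intro h; rw [hCu i]; exact h
  have hu0 : ∀ i, u i ≠ 0 := by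
    intro i h
    apply hu i
    rw [h]; simp [disc]
  have hn0 : ∀ i, quad (u i) (p (m i)) ≠ 0 := fun i h => hm i ((hmem i _).mpr h)
  -- no three points on a line, for three points on one of the conics
  have hnc1 : ∀ l, ∀ i j k : Fin 6, i ≠ m l → j ≠ m l → k ≠ m l → i ≠ j → i ≠ k → j ≠ k →
      cross (p i) (p j) (p k) ≠ 0 := by
    intro l i j k hi hj hk hij hik hjk hc
    exact hu l (disc_eq_zero (fun h => hij (hp h)) (fun h => hik (hp h)) (fun h => hjk (hp h)) hc
      ((hmem l _).mp (hm' l i hi)) ((hmem l _).mp (hm' l j hj)) ((hmem l _).mp (hm' l k hk)))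
  have hfive : ∀ l, ∀ w : Fin 6 → ℝ, (∀ i, i ≠ m l → quad w (p i) = 0) → ∃ t : ℝ, w = t • u l := by
    intro l w hw
    refine five (q := fun i => p ((m l).succAbove i)) ?_ (hu0 l) ?_ ?_
    · intro i j k hij hik hjk
      exact hnc1 l _ _ _ (Fin.succAbove_ne _ _) (Fin.succAbove_ne _ _) (Fin.succAbove_ne _ _)
        (fun h => hij (Fin.succAbove_right_injective h))
        (fun h => hik (Fin.succAbove_right_injective h))
        (fun h => hjk (Fin.succAbove_right_injective h))
    · intro i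
      exact (hmem l _).mp (hm' l _ (Fin.succAbove_ne _ _))
    · intro i
      exact hw _ (Fin.succAbove_ne _ _)
  -- different conics miss different points
  have hminj : Function.Injective m := by
    intro a b hab
    apply hC
    obtain ⟨t, ht⟩ := hfive a (u b) (fun i hi => (hmem b _).mp (hm' b i (by rw [← hab]; exact hi)))
    have ht0 : t ≠ 0 := by
      rintro rfl
      rw [zero_smul] at ht
      exact hu0 b ht
    ext x
    rw [hmem, hmem, ht]
    have e : quad (t • u a) x = t * quad (u a) x := by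
      simp only [quad, Pi.smul_apply, smul_eq_mul]; ring
    rw [e]
    constructor
    · intro h; rw [h, mul_zero]
    · intro h; exact (mul_eq_zero.mp h).resolve_left ht0
  let e : Fin 6 ≃ Fin 6 := Equiv.ofBijective m (Finite.injective_iff_bijective.mp hminj)
  have he : ∀ j, m (e.symm j) = j := fun j => e.apply_symm_apply j
  -- similar conics have proportional invariants
  have hinv : ∀ a b, dt (u a) * tr (u b) ^ 2 = dt (u b) * tr (u a) ^ 2 := by
    intro a b
    obtain ⟨r, hr, g, hg⟩ := hsim a b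
    obtain ⟨w, hw, hwt, hwd⟩ := pull g r (u b)
    obtain ⟨t, ht⟩ := hfive a w (fun i hi => by
      rw [hw]
      apply (hmem b _).mp
      rw [hg]
      exact ⟨p i, hm' a i hi, rfl⟩)
    have h1 : dt w = t ^ 2 * dt (u a) := by
      rw [ht]; simp only [dt, Pi.smul_apply, smul_eq_mul]; ring
    have h2 : tr w = t * tr (u a) := by
      rw [ht]; simp only [tr, Pi.smul_apply, smul_eq_mul]; ring
    have h3 : r ^ 4 * (dt (u a) * tr (u b) ^ 2 - dt (u b) * tr (u a) ^ 2) = 0 := by
      rw [hwt] at h2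
      rw [hwd] at h1
      linear_combination dt (u a) * (r ^ 2 * tr (u b) + t * tr (u a)) * h2 - tr (u a) ^ 2 * h1
    have h4 := (mul_eq_zero.mp h3).resolve_left (by positivity)
    linarith
  refine core (p := p) (v := fun j => (quad (u (e.symm j)) (p j))⁻¹ • u (e.symm j)) ?_ ?_ ?_
  · intro i j k hij hik hjk
    obtain ⟨l, h1, h2, h3⟩ := four i j k
    exact hnc1 (e.symm l) i j k (by rw [he]; exact h1) (by rw [he]; exact h2)
      (by rw [he]; exact h3) hij hik hjk
  · intro i j
    have e1 : quad ((quad (u (e.symm i)) (p i))⁻¹ • u (e.symm i)) (p j)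
        = (quad (u (e.symm i)) (p i))⁻¹ * quad (u (e.symm i)) (p j) := by
      simp only [quad, Pi.smul_apply, smul_eq_mul]; ring
    rw [e1]
    split_ifs with h
    · rw [h]
      apply inv_mul_cancel₀
      have := hn0 (e.symm i)
      rwa [he] at this
    · have : quad (u (e.symm i)) (p j) = 0 :=
        (hmem _ _).mp (hm' _ j (by rw [he]; exact h))
      rw [this, mul_zero]
  · intro i j
    have := hinv (e.symm i) (e.symm j)
    simp only [dt, tr, Pi.smul_apply, smul_eq_mul] at this ⊢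
    linear_combination ((quad (u (e.symm i)) (p i))⁻¹ ^ 2 * (quad (u (e.symm j)) (p j))⁻¹ ^ 2) * this

end Pool.Agent.Results.MP_9b4c5b_co.NoSixConfiguration
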